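import Pool.Agent.helper12.OB.SpecB

/-!
# Project ob (MP_baa4d7_al), row SMD: change of the weights modulo `M`
-/

set_option autoImplicit false

namespace Pool.Agent.OB

open Pool.Agent.helper58.DC Pool.Agent.DI Pool.Agent.GR

/-- the action by conjugation -/
def SMD_act (G : Type) [Group G] (n : ℕ) : G →* Equiv.Perm ((Fin n → G) × G) :=
  MonoidHom.mk' (fun h =>
    { toFun := fun x => (fun j => h * x.1 j * h⁻¹, h * x.2 * h⁻¹)
      invFun := fun x => (fun j => h⁻¹ * x.1 j * h, h⁻¹ * x.2 * h)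
      left_inv := fun x => Prod.ext (funext fun j => by group) (by group)
      right_inv := fun x => Prod.ext (funext fun j => by group) (by group) })
    (by
      intro a b
      apply Equiv.ext
      intro x
      refine Prod.ext (funext fun j => ?_) ?_
      · show a * b * x.1 j * (a * b)⁻¹ = a * (b * x.1 j * b⁻¹) * a⁻¹
        group
      · show a * b * x.2 * (a * b)⁻¹ = a * (b * x.2 * b⁻¹) * a⁻¹
        group)

theorem SMD_act_apply {G : Type} [Group G] {n : ℕ} (h : G) (x : (Fin n → G) × G) :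
    SMD_act G n h x = (fun j => h * x.1 j * h⁻¹, h * x.2 * h⁻¹) := rfl

theorem SMD_qq {G : Type} [Group G] {n : ℕ} (h : G) (z : Fin n → G) :
    qq (fun j => h * z j * h⁻¹) = h * qq z * h⁻¹ := by
  unfold qq
  have h1 : List.ofFn (fun j => h * z j * h⁻¹) = (List.ofFn z).map (MulAut.conj h) := by
    rw [List.map_ofFn]
    rfl
  rw [h1, ← map_list_prod]
  rfl

theorem SMD_tp {G : Type} [Group G] (p : ℕ) (h x : G) : tp p (h * x * h⁻¹) = tp p x := by
  classical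
  unfold tp
  have h1 : (h * x * h⁻¹) ^ p = 1 ↔ x ^ p = 1 := by
    rw [conj_pow]
    exact conj_eq_one_iff
  simp only [h1]

theorem SMD (hLDW : LDW_stmt) : SMD_stmt := by
  classical
  intro p M hS G _ _ n g₁ g₂ f₁ f₂ hg₁ hg₂ hf₁ hf₂ h1 h2
  have : Fintype G := Fintype.ofFinite G
  obtain ⟨gen, hgen⟩ : ∃ gen : (Fin n → G) × G → Subgroup G,
    gen = fun x => Subgroup.closure (Set.range x.1 ∪ {x.2}) := ⟨_, rfl⟩
  obtain ⟨θ, hθ⟩ : ∃ θ : (Fin n → G) × G → ℂ, θ = fun x =>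
    (g₁ x.2 * g₂ (qq x.1 * x.2)⁻¹ - f₁ x.2 * f₂ (qq x.1 * x.2)⁻¹) * ∏ j, tp p (x.1 j) := ⟨_, rfl⟩
  have ha : ∀ g x, gen (SMD_act G n g x) = cj g (gen x) := by
    intro g x
    rw [hgen, SMD_act_apply]
    show Subgroup.closure (Set.range (fun j => g * x.1 j * g⁻¹) ∪ {g * x.2 * g⁻¹}) =
      (Subgroup.closure (Set.range x.1 ∪ {x.2})).map (MulAut.conj g).toMonoidHom
    rw [MonoidHom.map_closure, Set.image_union, Set.image_singleton, ← Set.range_comp]
    rfl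
  have hb : ∀ g x, SMD_act G n g x = x ↔ g ∈ cz (gen x) := by
    intro g x
    rw [hgen, SMD_act_apply]
    show _ ↔ g ∈ Subgroup.centralizer ((Subgroup.closure (Set.range x.1 ∪ {x.2}) :
      Subgroup G) : Set G)
    rw [Subgroup.centralizer_closure, Subgroup.mem_centralizer_iff]
    have key : ∀ y : G, g * y * g⁻¹ = y ↔ y * g = g * y := by
      intro y
      rw [mul_inv_eq_iff_eq_mul]
      exact eq_comm
    constructor
    · intro h y hy
      rw [← key]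
      rcases hy with ⟨j, rfl⟩ | hy
      · exact congrFun (congrArg Prod.fst h) j
      · rw [Set.mem_singleton_iff.1 hy]
        exact congrArg Prod.snd h
    · intro h
      exact Prod.ext (funext fun j => (key _).2 (h _ (Or.inl ⟨j, rfl⟩)))
        ((key _).2 (h _ (Or.inr rfl)))
  have hc : ∀ x, InM M (θ x) := by
    intro x
    rw [hθ]
    have e1 : g₁ x.2 * g₂ (qq x.1 * x.2)⁻¹ - f₁ x.2 * f₂ (qq x.1 * x.2)⁻¹ =
        (g₁ x.2 - f₁ x.2) * g₂ (qq x.1 * x.2)⁻¹ +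
          f₁ x.2 * (g₂ (qq x.1 * x.2)⁻¹ - f₂ (qq x.1 * x.2)⁻¹) := by ring
    show InM M ((g₁ x.2 * g₂ (qq x.1 * x.2)⁻¹ - f₁ x.2 * f₂ (qq x.1 * x.2)⁻¹) *
      ∏ j, tp p (x.1 j))
    rw [e1]
    refine InM.mul_right hS (InM.add hS (InM.mul_right hS (h1 _) (hg₂.int _))
      (InM.mul_left hS (hf₁.int _) (h2 _))) (IntAt.prod hS _ fun j _ => ?_)
    unfold tp
    split_ifs
    · exact IntAt.one hS
    · exact IntAt.zero hS
  have hd : ∀ g x, θ (SMD_act G n g x) = θ x := by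
    intro g x
    rw [hθ, SMD_act_apply]
    show (g₁ (g * x.2 * g⁻¹) * g₂ (qq (fun j => g * x.1 j * g⁻¹) * (g * x.2 * g⁻¹))⁻¹ -
      f₁ (g * x.2 * g⁻¹) * f₂ (qq (fun j => g * x.1 j * g⁻¹) * (g * x.2 * g⁻¹))⁻¹) *
        ∏ j, tp p (g * x.1 j * g⁻¹) = _
    have e1 : (qq (fun j => g * x.1 j * g⁻¹) * (g * x.2 * g⁻¹))⁻¹ =
        g * (qq x.1 * x.2)⁻¹ * g⁻¹ := by
      rw [SMD_qq]
      group
    rw [e1, hg₁.cls, hg₂.cls, hf₁.cls, hf₂.cls, Finset.prod_congr rfl fun j _ => SMD_tp p g _]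
  obtain ⟨w, hw, hsum⟩ := hLDW p M hS G ((Fin n → G) × G) (SMD_act G n) gen ha hb θ hc hd
  refine ⟨w, hw, ?_⟩
  rw [← hsum, sub_zero]
  unfold Sp
  rw [finsum_eq_sum_of_fintype, finsum_eq_sum_of_fintype, finsum_eq_sum_of_fintype,
    ← Finset.sum_sub_distrib]
  refine Finset.sum_congr rfl fun x _ => ?_
  rw [hθ, hgen]
  ring

end Pool.Agent.OB
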